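import Pool.Agent.Q205.Subt

/-!
# Ramsey's theorem for differences is not Weihrauch reducible to Hindman's theorem for sums of two
elements

Let `f` be an eventually constant sequence with last change `N`.  The colouring which gives the
colour `0` exactly to the multiples of `N + 1` (with `N` replaced by the last change seen so far)
has only solutions of colour `0` for differences, and no difference of two elements of a solution is
`≤ N`.  So two elements of a solution determine the limit of `f`.  On the other hand the limit of
eventually constant sequences with three values is not computed by Hindman's theorem for sums of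
exactly two (or any number of) elements with two colours.
-/

set_option autoImplicit false

namespace Pool.Agent.Results.MP_98861b_lc.SubtNotReducible

open Pool.Agent.H190R3.Wei Pool.Agent.H190R3.HT Pool.Agent.Y579.HN Pool.Agent.Q205.Subt

/-- A problem: its instances, which are points of Baire space, and the solutions of each of
them. -/
structure Problem where
  /-- the set of instances -/
  inst : Set (ℕ → ℕ)
  /-- the set of solutions of an instance -/
  sol : (ℕ → ℕ) → Set (ℕ → ℕ)

/-- `z` is the characteristic function of an infinite set of natural numbers. -/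
def IsInfiniteSet (z : ℕ → ℕ) : Prop := (∀ n, z n < 2) ∧ {n | z n = 1}.Infinite

/-- Ramsey's theorem for differences and two colours: the solutions of a two-colouring `x` of the
natural numbers are the infinite sets `H` such that `x` is constant on the differences `b - a`,
`a < b` in `H`. -/
def RTsubt : Problem where
  inst := {x | ∀ n, x n < 2}
  sol x := {z | IsInfiniteSet z ∧ ∃ i, ∀ a b, a < b → z a = 1 → z b = 1 → x (b - a) = i}

/-- Hindman's theorem for sums of exactly two elements and two colours: the solutions of a
two-colouring `x` of the natural numbers are the infinite sets `H` such that `x` is constant on the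
sums `a + b`, `a < b` in `H`. -/
def HT2 : Problem where
  inst := {x | ∀ n, x n < 2}
  sol x := {z | IsInfiniteSet z ∧ ∃ i, ∀ a b, a < b → z a = 1 → z b = 1 → x (a + b) = i}

/-- Hindman's theorem for sums of exactly `n` elements and two colours: the solutions of a
two-colouring `x` of the natural numbers are the infinite sets `H` such that `x` is constant on the
sums of `n` distinct elements of `H`. -/
def HT (n : ℕ) : Problem where
  inst := {x | ∀ m, x m < 2}
  sol x := {z | IsInfiniteSet z ∧
    ∃ i, ∀ T : Finset ℕ, T.card = n → (∀ a ∈ T, z a = 1) → x (∑ a ∈ T, a) = i}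

/-- The functionals given by `φ` and `ψ` reduce `P` to `Q`: for every instance `x` of `P`, `Φ(x)` is
an instance of `Q`, and for every solution `z` of `Φ(x)`, `Ψ(x ⊕ z)` is a solution of `x`. -/
def Reduces (φ ψ : List ℕ → List ℕ) (P Q : Problem) : Prop :=
  ∀ x ∈ P.inst, ∃ y ∈ Q.inst, Maps φ x y ∧
    ∀ z ∈ Q.sol y, ∃ w ∈ P.sol x, Maps ψ (pair x z) w

/-- Weihrauch reducibility: the functionals are given by computable monotone word functions. -/
def WeihrauchLE (P Q : Problem) : Prop :=
  ∃ φ ψ : List ℕ → List ℕ, IsMachine φ ∧ IsMachine ψ ∧ Reduces φ ψ P Q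

/-- Continuous Weihrauch reducibility: arbitrary word functions. -/
def ContinuousLE (P Q : Problem) : Prop := ∃ φ ψ : List ℕ → List ℕ, Reduces φ ψ P Q

theorem not_HT {n : ℕ} (hn : 1 ≤ n) : ¬ ContinuousLE RTsubt (HT n) := by
  rintro ⟨φ, ψ, h⟩
  refine Pool.Agent.Y579.HN.no_machine cf
    (fun f m => ⟨m, fun f' hf k hk => cf_congr fun j hj => hf j (by omega)⟩)
    (fun l => n :: φ l) (fun σ => out (ψ σ)) ?_
  intro f hf
  obtain ⟨y, hy, h1, h2⟩ := h (cf f) (cf_lt f)
  refine ⟨tag n y, ⟨hn, hy⟩, maps_tag h1 n, fun z hz1 hz2 hz3 => ?_⟩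
  obtain ⟨H, ⟨hH1, i, hH2⟩, hH3⟩ := h2 z ⟨⟨hz1, hz2⟩, hz3⟩
  obtain ⟨a, b, hab, ha, hb, hw⟩ := maps_out hH3 hH1.2
  obtain ⟨N, hN1, hN2⟩ := exists_last hf
  have hd : N < b - a := differences hN2 hH1.2 (i := i)
    (fun p hp q hq hpq => hH2 p q hpq hp hq) ha hb hab
  refine ⟨_, hw, ?_, ?_⟩
  · refine (Set.infinite_of_not_bddAbove ?_)
    rintro ⟨B, hB⟩
    have h3 : (max (B + 1) (b - a)) ∈ {k | (if b - a ≤ k then 1 else 0) = 1} := by
      show (if b - a ≤ max (B + 1) (b - a) then 1 else 0) = 1
      rw [if_pos (le_max_right _ _)]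
    have := hB h3
    have := le_max_left (B + 1) (b - a)
    omega
  · intro p q hp hq
    have hp' : b - a ≤ p := by by_contra hcon; rw [if_neg hcon] at hp; omega
    have hq' : b - a ≤ q := by by_contra hcon; rw [if_neg hcon] at hq; omega
    rw [hN1 p (by omega), hN1 q (by omega)]

theorem HT2_le {P : Problem} {φ ψ : List ℕ → List ℕ} (h : Reduces φ ψ P HT2) :
    Reduces φ ψ P (HT 2) := by
  intro x hx
  obtain ⟨y, hy, h1, h2⟩ := h x hx
  refine ⟨y, hy, h1, fun z hz => h2 z ⟨hz.1, ?_⟩⟩
  obtain ⟨i, hi⟩ := hz.2
  refine ⟨i, fun a b hab ha hb => ?_⟩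
  have h3 := hi {a, b} (Finset.card_pair hab.ne) (by
    intro c hc
    rcases Finset.mem_insert.1 hc with rfl | hc
    · exact ha
    · rw [Finset.mem_singleton.1 hc]; exact hb)
  rwa [Finset.sum_pair hab.ne] at h3

/-- Ramsey's theorem for differences with two colours is not Weihrauch reducible to Hindman's
theorem for sums of exactly two elements with two colours; there is not even a reduction by means of
continuous functionals to Hindman's theorem for sums of exactly `n` elements with two colours, for
any `n ≥ 1`. -/
theorem result : ¬ WeihrauchLE RTsubt HT2 ∧ ¬ ContinuousLE RTsubt HT2 ∧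
    ∀ n, 1 ≤ n → ¬ ContinuousLE RTsubt (HT n) := by
  refine ⟨?_, ?_, fun n hn => not_HT hn⟩
  · rintro ⟨φ, ψ, -, -, h⟩
    exact not_HT (n := 2) (by omega) ⟨φ, ψ, HT2_le h⟩
  · rintro ⟨φ, ψ, h⟩
    exact not_HT (n := 2) (by omega) ⟨φ, ψ, HT2_le h⟩

end Pool.Agent.Results.MP_98861b_lc.SubtNotReducible
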